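import Pool.Agent.P.MP_e517ea_lc.Z.Main

universe u

namespace Pool.Agent.Results.MP_e517ea_lc.AllModels

open Pool.Agent.P.MP_e517ea_lc.Z

/-- In every first-order model `(M, E)` of ZF (not assumed transitive or well-founded), for every
`A` that is infinite in the model, if `B` is the set of finitary partitions of `A` and `S` is the
set of injective finite sequences of elements of `A`, both in the sense of the model, then the model
has no bijection between `B` and `S`. -/
theorem result {M : Type u} (E : M → M → Prop) (h : IsZF E) (A B S : M) (hA : ¬ IsFinite E A)
    (hB : ∀ P, E P B ↔ IsFinPartition E A P) (hS : ∀ s, E s S ↔ IsInjSeq E A s) :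
    ¬ EqCard E B S :=
  main E h A B S hA hB hS

end Pool.Agent.Results.MP_e517ea_lc.AllModels
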